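import Pool.Agent.H29.LA.Targets

/-!
# Extension of a discrete valuation
-/

set_option autoImplicit false

open Polynomial IntermediateField
open scoped WithZero

namespace Pool.Agent.H60.LA

open Pool.Agent.H29.LA

theorem pf_EXV : T_EXV := by
  intro M Ω _ _ _ w π hπ
  have hlt : w π < 1 := by
    rw [hπ, ← WithZero.exp_zero, WithZero.exp_lt_exp]
    norm_num
  have hπ0 : π ≠ 0 := by
    intro h
    rw [h, map_zero] at hπ
    exact WithZero.exp_ne_zero hπ.symm
  have hΩ0 : algebraMap M Ω π ≠ 0 := (_root_.map_ne_zero _).2 hπ0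
  obtain ⟨A, hA⟩ : ∃ A : Subring Ω, A = w.valuationSubring.toSubring.map (algebraMap M Ω) :=
    ⟨_, rfl⟩
  have hAm : ∀ a : M, w a ≤ 1 → algebraMap M Ω a ∈ A := by
    intro a ha
    rw [hA]
    exact ⟨a, ha, rfl⟩
  obtain ⟨B, hB1, hB2⟩ := Ideal.image_subset_nonunits_valuationSubring
    (Ideal.span {(⟨algebraMap M Ω π, hAm π hlt.le⟩ : A)}) (by
      intro htop
      rw [Ideal.span_singleton_eq_top] at htop
      obtain ⟨⟨z, hz⟩, hz1⟩ := isUnit_iff_exists_inv.1 htop
      rw [hA] at hz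
      obtain ⟨z₀, hz₀, rfl⟩ := hz
      have h1 : algebraMap M Ω (π * z₀) = algebraMap M Ω 1 := by
        rw [map_mul, map_one]
        exact congrArg Subtype.val hz1
      have h2 := (algebraMap M Ω).injective h1
      have h3 := congrArg w h2
      rw [map_mul, map_one] at h3
      have hz₀' : w z₀ ≤ 1 := hz₀
      have h4 : w π * w z₀ < 1 := mul_lt_one_of_lt_of_le hlt hz₀'
      exact h4.ne h3)
  have hV : B.valuation (algebraMap M Ω π) < 1 := by
    rw [← ValuationSubring.mem_nonunits_iff]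
    exact hB2 ⟨⟨algebraMap M Ω π, hAm π hlt.le⟩, Ideal.mem_span_singleton_self _, rfl⟩
  have hle : ∀ a : M, w a ≤ 1 → B.valuation (algebraMap M Ω a) ≤ 1 := by
    intro a ha
    rw [ValuationSubring.valuation_le_one_iff]
    exact hB1 (hAm a ha)
  refine ⟨B, (Valuation.pos_iff _).2 hΩ0, hV, ?_⟩
  intro a n ha
  have ha0 : a ≠ 0 := by
    intro h
    rw [h, map_zero] at ha
    exact WithZero.exp_ne_zero ha.symm
  have hb : w (a * π ^ (-n)) = 1 := by
    rw [map_mul, map_zpow₀, ha, hπ, ← WithZero.exp_zsmul, ← WithZero.exp_add]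
    have : -n + (-n) • (-1 : ℤ) = 0 := by
      rw [smul_eq_mul]
      ring
    rw [this, WithZero.exp_zero]
  have h1 := hle _ hb.le
  have hb' : w (a * π ^ (-n))⁻¹ = 1 := by
    rw [map_inv₀, hb, inv_one]
  have h2 := hle _ hb'.le
  rw [map_inv₀, map_inv₀] at h2
  have hne : algebraMap M Ω (a * π ^ (-n)) ≠ 0 :=
    (_root_.map_ne_zero _).2 (mul_ne_zero ha0 (zpow_ne_zero _ hπ0))
  have hpos : 0 < B.valuation (algebraMap M Ω (a * π ^ (-n))) := (Valuation.pos_iff _).2 hne
  have h3 : 1 ≤ B.valuation (algebraMap M Ω (a * π ^ (-n))) := by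
    rwa [inv_le_one₀ hpos] at h2
  have h4 : B.valuation (algebraMap M Ω (a * π ^ (-n))) = 1 := le_antisymm h1 h3
  have h5 : algebraMap M Ω a = algebraMap M Ω (a * π ^ (-n)) * algebraMap M Ω π ^ n := by
    rw [map_mul, map_zpow₀, mul_assoc, ← zpow_add₀ hΩ0, neg_add_cancel, zpow_zero, mul_one]
  rw [h5, map_mul, h4, one_mul, map_zpow₀]

end Pool.Agent.H60.LA
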