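import Pool.Agent.H29.LA.Targets

/-!
# The points of the ring of the roots
-/

set_option autoImplicit false

open Polynomial

namespace Pool.Agent.H60.LA

open Pool.Agent.H29.LA

section

variable {K : Type} [Field K] {m : ℕ} {f : K[X][X]} {R : Type} [CommRing R] [IsDomain R]
  [Algebra K[X] R] {y : Fin m → R}

theorem hom_point (hinj : Function.Injective (algebraMap K[X] R))
    (hint : Algebra.IsIntegral K[X] R) (hf : f.map (algebraMap K[X] R) = ∏ i, (X - C (y i)))
    (hadj : Algebra.adjoin K[X] (Set.range y) = ⊤) (x : K) (hs : (fib f x).Splits) :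
    ∃ φ : R →+* K, ∀ p : K[X], φ (algebraMap K[X] R p) = p.eval x := by
  classical
  haveI hmax : (RingHom.ker (evalRingHom x)).IsMaximal :=
    RingHom.ker_isMaximal_of_surjective _ fun a => ⟨C a, by simp⟩
  obtain ⟨Q, hQ, hQc⟩ := Ideal.exists_ideal_over_maximal_of_isIntegral (R := K[X]) (S := R)
    (RingHom.ker (evalRingHom x)) (by
      rw [(RingHom.injective_iff_ker_eq_bot _).1 hinj]
      exact bot_le)
  letI := Ideal.Quotient.field Q
  obtain ⟨ψ, hψ⟩ : ∃ ψ : K →+* R ⧸ Q,
      ψ = (Ideal.Quotient.mk Q).comp ((algebraMap K[X] R).comp C) := ⟨_, rfl⟩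
  have hp : ∀ p : K[X], Ideal.Quotient.mk Q (algebraMap K[X] R p) = ψ (p.eval x) := by
    intro p
    rw [hψ]
    change Ideal.Quotient.mk Q (algebraMap K[X] R p) =
      Ideal.Quotient.mk Q (algebraMap K[X] R (C (p.eval x)))
    rw [Ideal.Quotient.eq, ← map_sub]
    have h1 : p - C (p.eval x) ∈ RingHom.ker (evalRingHom x) := by
      rw [RingHom.mem_ker]
      simp
    rw [← hQc] at h1
    exact h1
  have hcomp : (Ideal.Quotient.mk Q).comp (algebraMap K[X] R) = ψ.comp (evalRingHom x) :=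
    RingHom.ext hp
  have hfib : (fib f x).map ψ = ∏ i, (X - C (Ideal.Quotient.mk Q (y i))) := by
    unfold fib
    rw [Polynomial.map_map, ← hcomp, ← Polynomial.map_map, hf, Polynomial.map_prod]
    refine Finset.prod_congr rfl fun i _ => ?_
    rw [Polynomial.map_sub, Polynomial.map_X, Polynomial.map_C]
  have hfib0 : fib f x ≠ 0 := by
    intro h
    rw [h, Polynomial.map_zero] at hfib
    have h1 : (∏ i, (X - C (Ideal.Quotient.mk Q (y i)))).Monic :=
      monic_prod_of_monic _ _ fun i _ => monic_X_sub_C _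
    exact h1.ne_zero hfib.symm
  have hroot : ∀ i, ∃ a : K, ψ a = Ideal.Quotient.mk Q (y i) := by
    intro i
    have h1 : ((fib f x).map ψ).eval (Ideal.Quotient.mk Q (y i)) = 0 := by
      rw [hfib, eval_prod]
      exact Finset.prod_eq_zero (Finset.mem_univ i) (by simp)
    rw [hs.eq_prod_roots, Polynomial.map_mul, Polynomial.map_C, eval_mul, eval_C,
      Polynomial.map_multiset_prod, Multiset.map_map, eval_multiset_prod, Multiset.map_map] at h1
    rcases mul_eq_zero.1 h1 with h2 | h2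
    · rw [map_eq_zero] at h2
      exact absurd (leadingCoeff_eq_zero.1 h2) hfib0
    · rw [Multiset.prod_eq_zero_iff, Multiset.mem_map] at h2
      obtain ⟨a, -, ha⟩ := h2
      refine ⟨a, ?_⟩
      have h3 : Ideal.Quotient.mk Q (y i) - ψ a = 0 := by
        simpa using ha
      exact (sub_eq_zero.1 h3).symm
  have hsurj : Function.Surjective ψ := by
    intro r
    obtain ⟨r, rfl⟩ := Ideal.Quotient.mk_surjective r
    have hr : r ∈ Algebra.adjoin K[X] (Set.range y) := by
      rw [hadj]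
      exact Algebra.mem_top
    induction hr using Algebra.adjoin_induction with
    | mem r hr =>
      obtain ⟨i, rfl⟩ := hr
      exact hroot i
    | algebraMap p => exact ⟨p.eval x, (hp p).symm⟩
    | add r s _ _ h1 h2 =>
      obtain ⟨a, ha⟩ := h1
      obtain ⟨b, hb⟩ := h2
      exact ⟨a + b, by rw [map_add, map_add, ha, hb]⟩
    | mul r s _ _ h1 h2 =>
      obtain ⟨a, ha⟩ := h1
      obtain ⟨b, hb⟩ := h2
      exact ⟨a * b, by rw [map_mul, map_mul, ha, hb]⟩
  obtain ⟨e, he⟩ : ∃ e : K ≃+* R ⧸ Q, ∀ a, e a = ψ a :=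
    ⟨RingEquiv.ofBijective ψ ⟨ψ.injective, hsurj⟩, fun _ => rfl⟩
  refine ⟨(e.symm : R ⧸ Q →+* K).comp (Ideal.Quotient.mk Q), fun p => ?_⟩
  change e.symm (Ideal.Quotient.mk Q (algebraMap K[X] R p)) = p.eval x
  rw [hp, ← he, e.symm_apply_apply]

end

theorem pf_HOM : T_HOM := by
  intro K _ m f R _ _ _ y hinj hint hf hadj
  refine ⟨fun x hs => hom_point hinj hint hf hadj x hs, ?_⟩
  intro a ha
  have ha' : IsIntegral K[X] a := hint.isIntegral a
  have h1 := Ideal.comap_ne_bot_of_integral_mem (I := Ideal.span {a}) ha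
    (Ideal.mem_span_singleton_self a) ha'
  obtain ⟨P, hP, hP0⟩ := Submodule.exists_mem_ne_zero_of_ne_bot h1
  refine ⟨P, hP0, fun x φ hφ h0 => ?_⟩
  rw [Ideal.mem_comap, Ideal.mem_span_singleton'] at hP
  obtain ⟨b, hb⟩ := hP
  rw [← hφ, ← hb, map_mul, h0, mul_zero]

end Pool.Agent.H60.LA
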